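import Mathlib
import Pool.Agent.N967.P.Alg

/-!
# Algebraic relations between the ordinates of the zeta zeros and the Baez-Duarte distance of shifted products

For an L-function `L` let

  `d_M²(L) = inf (1/2π) ∫ |1 - L(1/2 + it) A(1/2 + it)|² dt / (1/4 + t²)`,

the infimum over all Dirichlet polynomials `A(s) = ∑_(n ≤ M) a_n n^(-s)` (Nyman, Beurling, Baez-Duarte), and let
`C(τ) = 2 Re (Λ'/Λ)(1 + iτ)`, `Λ(s) = s (s - 1) π^(-s/2) Γ(s/2) ζ(s)`; `C(0) = 2 + γ - log 4π`.

**Theorem 1.**  The following are equivalent: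

* the Riemann hypothesis holds, and no two different ordinates of nontrivial zeros (of either sign) differ by an
  algebraic number;
* for every nonzero real algebraic number `τ` the limits of `d_M² log M` exist (and are finite) for `ζ(s)`, `ζ(s + iτ)`
  and `ζ(s) ζ(s + iτ)`, and `lim d_M²(ζ(s) ζ(s + iτ)) log M = lim d_M²(ζ(s)) log M + lim d_M²(ζ(s + iτ)) log M`.

They imply that every positive ordinate is transcendental.

**Theorem 2.**  The Riemann hypothesis holds, all nontrivial zeros are simple, and no two different ordinates differ by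
an algebraic number if and only if `d_M²(ζ(s) ζ(s + iτ)) log M → C(0) + C(τ)` for every nonzero real algebraic `τ`.

**Theorem 3.**  Let `T` be the set of all numbers `p(γ_1, ..., γ_k)` where `γ_1, ..., γ_k` are different positive
ordinates and `p` is a polynomial over `ℚ` in which at least three variables occur.  The Riemann hypothesis holds AND the
set `Γ` of the positive ordinates is algebraically independent over `ℚ` if and only if the second statement of Theorem 1
holds for all `τ` in `T`; and the Riemann hypothesis holds, all nontrivial zeros are simple AND `Γ` is algebraically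
independent over `ℚ` if and only if `d_M²(ζ(s) ζ(s + iτ)) log M → C(0) + C(τ)` for all `τ` in `T`.

Idea: relations between ordinates are coincidences of zeros of vertically shifted zeta functions; under the Riemann
hypothesis `d_M² log M` converges to the sum of the squares of the multiplicities of the zeros, divided by `|ρ|²`, and the
squares show the coincidences (`Pool.Agent.Results.MP_0ec205_nt.ShiftedProductsDistance`, modules `Pool.Agent.N967.P`).

With helpers 27, 72, 73, 75, 80, 106, 135, 136, 157, 163, 239, 278, 325, 429, 455, 457, 494, 558, 572, 603, 614, 717, 769,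
803, 814, 832, 849, 861, 951.
-/

set_option autoImplicit false

namespace Pool.Agent.Results.MP_ec260d_nt.AlgebraicShifts

open Complex MeasureTheory Filter Topology

/-! ### the distance and the constants -/

/-- `|1 - L(s) A(s)|² / (1/4 + t²)` at `s = 1/2 + i t`, for the Dirichlet polynomial `A(s) = ∑_(n ≤ M) a(n) n^(-s)`. -/
noncomputable def integrand (L : ℂ → ℂ) (M : ℕ) (a : ℕ → ℂ) (t : ℝ) : ℝ :=
  ‖1 - L (1 / 2 + t * I) * ∑ n ∈ Finset.Icc 1 M, a n * (n : ℂ) ^ (-(1 / 2 + t * I))‖ ^ 2 / (1 / 4 + t ^ 2)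

/-- `d_M²(L)`: the infimum of `(1/2π) ∫ |1 - L A|² dt / (1/4 + t²)` over the Dirichlet polynomials of length `M`,
with values in `[0, ∞]`. -/
noncomputable def dist2 (L : ℂ → ℂ) (M : ℕ) : ENNReal :=
  ⨅ a : ℕ → ℂ, ENNReal.ofReal (1 / (2 * Real.pi)) * ∫⁻ t : ℝ, ENNReal.ofReal (integrand L M a t)

/-- `d_M²(L) log M → v` as `M → ∞`, for a real number `v ≥ 0` -/
def HasLimit (L : ℂ → ℂ) (v : ℝ) : Prop :=
  0 ≤ v ∧ Tendsto (fun M : ℕ => dist2 L M * ENNReal.ofReal (Real.log M)) atTop (𝓝 (ENNReal.ofReal v))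

/-- the limits of `d_M² log M` exist for `ζ(s)`, `ζ(s + iτ)` and `ζ(s) ζ(s + iτ)`, and the last is the sum of the
others -/
def LimitsAdd (τ : ℝ) : Prop := ∃ u v : ℝ,
  HasLimit riemannZeta u ∧ HasLimit (fun s => riemannZeta (s + τ * I)) v ∧
    HasLimit (fun s => riemannZeta s * riemannZeta (s + τ * I)) (u + v)

/-- The completed zeta function `Λ(s) = s (s - 1) π^(-s/2) Γ(s/2) ζ(s)`, an entire function. -/
noncomputable def completed (s : ℂ) : ℂ := s * (s - 1) * completedRiemannZeta₀ s + 1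

/-- `C(τ) = 2 Re (Λ'/Λ)(1 + iτ)` -/
noncomputable def C (τ : ℝ) : ℝ := 2 * (logDeriv completed (1 + τ * I)).re

/-! ### the zeros -/

/-- the nontrivial zeros -/
def nontrivialZeros : Set ℂ := {s : ℂ | (0 < s.re ∧ s.re < 1) ∧ riemannZeta s = 0}

/-- all nontrivial zeros are simple -/
def SimpleZeros : Prop := ∀ s ∈ nontrivialZeros, deriv riemannZeta s ≠ 0

/-- no two different ordinates of nontrivial zeros differ by an algebraic number -/
def NoAlgebraicDifference : Prop := ∀ s ∈ nontrivialZeros, ∀ s' ∈ nontrivialZeros, s.im ≠ s'.im →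
  Transcendental ℚ (s.im - s'.im)

/-- the set of the positive ordinates of the nontrivial zeros -/
def Γ : Set ℝ := {γ : ℝ | 0 < γ ∧ ∃ s : ℂ, (0 < s.re ∧ s.re < 1) ∧ s.im = γ ∧ riemannZeta s = 0}

/-- `T`: the values at different elements of `Γ` of the polynomials over `ℚ` in which at least three variables occur -/
def T : Set ℝ := {τ : ℝ | ∃ p : MvPolynomial Γ ℚ, 3 ≤ p.vars.card ∧
  τ = MvPolynomial.aeval (fun γ : Γ => (γ : ℝ)) p}

/-! ### the theorem -/

lemma integrand_eq (L : ℂ → ℂ) (M : ℕ) (a : ℕ → ℂ) :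
    integrand L M a = Pool.Agent.N967.G.integrand L (1 / 2) M a := by
  funext t
  unfold integrand Pool.Agent.N967.G.integrand
  rw [Pool.Agent.N967.G.half_cast]

lemma dist2_eq (L : ℂ → ℂ) (M : ℕ) : dist2 L M = Pool.Agent.N967.G.dist2 L (1 / 2) M := by
  unfold dist2 Pool.Agent.N967.G.dist2
  simp only [integrand_eq]

lemma limit_eq (L : ℂ → ℂ) (v : ℝ) : HasLimit L v ↔ 0 ≤ v ∧ Pool.Agent.N967.P.Z.HL L v := by
  unfold HasLimit Pool.Agent.N967.P.Z.HL
  simp only [dist2_eq]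

lemma add_eq (τ : ℝ) : LimitsAdd τ ↔ Pool.Agent.N967.P.Z.Add τ := by
  unfold LimitsAdd Pool.Agent.N967.P.Z.Add
  simp only [limit_eq]
  constructor
  · rintro ⟨u, v, ⟨h1, h3⟩, ⟨h2, h4⟩, -, h5⟩
    exact ⟨u, v, h1, h2, h3, h4, h5⟩
  · rintro ⟨u, v, h1, h2, h3, h4, h5⟩
    exact ⟨u, v, ⟨h1, h3⟩, ⟨h2, h4⟩, add_nonneg h1 h2, h5⟩

lemma simple_eq : SimpleZeros ↔ Pool.Agent.N967.P.Z.Simple :=
  ⟨fun h s h0 h1 h2 => h s ⟨⟨h0, h1⟩, h2⟩, fun h s hs => h s hs.1.1 hs.1.2 hs.2⟩

lemma nad_eq : NoAlgebraicDifference ↔ Pool.Agent.N967.P.Z.NAD :=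
  ⟨fun h s s' h0 h1 h2 h3 h4 h5 => h s ⟨⟨h0, h1⟩, h2⟩ s' ⟨⟨h3, h4⟩, h5⟩,
    fun h s hs s' hs' => h s s' hs.1.1 hs.1.2 hs.2 hs'.1.1 hs'.1.2 hs'.2⟩

/-- the constants are limits, hence nonnegative -/
lemma two_eq (hRH : RiemannHypothesis) (τ : ℝ) : HasLimit (fun s => riemannZeta s * riemannZeta (s + τ * I)) (C 0 + C τ) ↔
    Pool.Agent.N967.P.Z.HL (fun s => riemannZeta s * riemannZeta (s + τ * I))
      (Pool.Agent.N967.P.Z.cc 0 + Pool.Agent.N967.P.Z.cc τ) := by
  rw [limit_eq]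
  refine ⟨fun h => h.2, fun h => ⟨?_, h⟩⟩
  obtain ⟨-, -, -, -, -, b6, -⟩ := Pool.Agent.N967.P.asyP (Pool.Agent.N967.P.Z.χ1 (Fin 2)) (Pool.Agent.N967.P.Z.two τ)
  rw [Pool.Agent.N967.P.Z.grh_eq, Pool.Agent.N967.P.Z.zeros_eq] at b6
  simp only [Pool.Agent.N967.P.Z.mult_eq1] at b6
  rw [Pool.Agent.N967.P.Z.Ct_eq, Fin.sum_univ_two] at b6
  have e0 : Pool.Agent.N967.P.Z.two τ 0 = 0 := by simp [Pool.Agent.N967.P.Z.two]
  have e1 : Pool.Agent.N967.P.Z.two τ 1 = τ := by simp [Pool.Agent.N967.P.Z.two]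
  rw [e0, e1] at b6
  exact (b6 hRH).nonneg fun ρ => by positivity

/-- **The theorem.** -/
theorem result :
    -- RH, and no two ordinates differ by an algebraic number
    ((RiemannHypothesis ∧ NoAlgebraicDifference) ↔ ∀ τ : ℝ, τ ≠ 0 → IsAlgebraic ℚ τ → LimitsAdd τ) ∧
    -- the same with simplicity
    ((RiemannHypothesis ∧ SimpleZeros ∧ NoAlgebraicDifference) ↔ ∀ τ : ℝ, τ ≠ 0 → IsAlgebraic ℚ τ →
      HasLimit (fun s => riemannZeta s * riemannZeta (s + τ * I)) (C 0 + C τ)) ∧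
    -- then all positive ordinates are transcendental
    (NoAlgebraicDifference → ∀ γ ∈ Γ, Transcendental ℚ γ) ∧
    -- RH and algebraic independence
    ((RiemannHypothesis ∧ AlgebraicIndependent ℚ (fun γ : Γ => (γ : ℝ))) ↔ ∀ τ ∈ T, LimitsAdd τ) ∧
    -- the same with simplicity
    ((RiemannHypothesis ∧ SimpleZeros ∧ AlgebraicIndependent ℚ (fun γ : Γ => (γ : ℝ))) ↔
      ∀ τ ∈ T, HasLimit (fun s => riemannZeta s * riemannZeta (s + τ * I)) (C 0 + C τ)) ∧
    -- the constant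
    C 0 = 2 + Real.eulerMascheroniConstant - Real.log (4 * Real.pi) := by
  refine ⟨?_, ?_, ?_, ?_, ?_, ?_⟩
  · rw [nad_eq, Pool.Agent.N967.P.Z.nad1]
    constructor
    · exact fun h τ h0 hτ => (add_eq τ).2 (h τ ⟨h0, hτ⟩)
    · exact fun h τ hτ => (add_eq τ).1 (h τ hτ.1 hτ.2)
  · rw [nad_eq, simple_eq]
    constructor
    · intro h τ h0 hτ
      exact (two_eq h.1 τ).2 (Pool.Agent.N967.P.Z.nad2.1 h τ ⟨h0, hτ⟩)
    · intro h
      exact Pool.Agent.N967.P.Z.nad2.2 fun τ hτ => ((limit_eq _ _).1 (h τ hτ.1 hτ.2)).2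
  · rintro h γ ⟨h0, s, ⟨s0, s1⟩, rfl, hs⟩
    exact Pool.Agent.N967.P.Z.nad_trans (nad_eq.1 h) s0 s1 hs h0.ne'
  · have h1 := Pool.Agent.N967.P.Z.alg1
    refine h1.trans ?_
    exact forall₂_congr fun τ _ => (add_eq τ).symm
  · rw [simple_eq]
    have h1 := Pool.Agent.N967.P.Z.alg2
    constructor
    · intro h τ hτ
      exact (two_eq h.1 τ).2 (h1.1 h τ hτ)
    · intro h
      exact h1.2 fun τ hτ => ((limit_eq _ _).1 (h τ hτ)).2
  · have hp : (1 : DirichletCharacter ℂ 1).IsPrimitive := DirichletCharacter.isPrimitive_one_level_one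
    have h1 := Pool.Agent.N967.D.cst_eq (1 : DirichletCharacter ℂ 1) hp
    have h2 : C 0 = 2 * (logDeriv (Pool.Agent.N967.D.Lam (1 : DirichletCharacter ℂ 1)) 1).re := by
      rw [Pool.Agent.N967.P.Z.Lam_one' rfl]
      unfold C
      have : (1 : ℂ) + ((0 : ℝ) : ℂ) * I = 1 := by simp
      rw [this]
      rfl
    rw [h2, h1]
    unfold Pool.Agent.N967.D.cst
    rw [if_pos rfl]

end Pool.Agent.Results.MP_ec260d_nt.AlgebraicShifts
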