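import Pool.Agent.N670.GS.Gap

/-!
# Monotone relations between two spacings of the ordinates

No hypothesis is assumed.  Let `0 < γ_1 ≤ γ_2 ≤ …` be the positive ordinates of the nontrivial zeros of `ζ`, with
multiplicity, and let `δ_n = (γ_{n+1} - γ_n) log (γ_n / 2π) / 2π` be the spacings, normalised to mean value one.

For every `k ≥ 1` there is `ε > 0` with the following property.  For all large `N` and EVERY nondecreasing function `f` the
relation `δ_{n+k} = f (δ_n)` fails, and fails even up to `ε`, for at least `ε N` of the indices `n ≤ N`; `f` may depend on `N`.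
The same holds for every nonincreasing function with a Lipschitz constant `Λ`, with `ε` depending only on `k` and `Λ`.
So two spacings at bounded distance satisfy no relation given by a monotone function, in particular none given by a
branch of an algebraic curve which is the graph of a monotone function.

The combinatorial theorems and the case of the numbers `γ_n log γ_n / 2π` are `Pool.Agent.X112.GS` of the starting files (in no
hand-in there); they rest on the normal law for the sums of `r` consecutive spacings.  The transfer to `δ_n` is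
`Pool.Agent.N670.GS.Gap` (helper670).
-/

set_option autoImplicit false

open Filter

namespace Pool.Agent.Results.MP_ec260d_nt.MonotoneRelations

/-- multiplicity of `s` as a zero of the Riemann zeta function (order of vanishing at `s`) -/
noncomputable def zmult (s : ℂ) : ℕ := analyticOrderNatAt riemannZeta s

/-- the number of nontrivial zeros of `ζ` with ordinate in `(0, t]`, with multiplicity -/
noncomputable def NZ (t : ℝ) : ℕ :=
  ∑ᶠ s ∈ {s : ℂ | riemannZeta s = 0 ∧ 0 < s.re ∧ s.re < 1 ∧ 0 < s.im ∧ s.im ≤ t}, zmult s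

/-- for `n ≥ 1`: the `n`-th positive ordinate `γ n` of a nontrivial zero of `ζ`, the ordinates being
listed in nondecreasing order and repeated according to multiplicity -/
noncomputable def γ (n : ℕ) : ℝ := sInf {t : ℝ | n ≤ NZ t}

/-- the normalised spacing `δ_n = (γ_{n+1} - γ_n) / 2π · log (γ_n / 2π)` -/
noncomputable def δ (n : ℕ) : ℝ :=
  (γ (n + 1) - γ n) / (2 * Real.pi) * Real.log (γ n / (2 * Real.pi))

/-- the number of the indices `1 ≤ n ≤ N` with the property `P` -/
noncomputable def count (N : ℕ) (P : ℕ → Prop) : ℝ := ({n : ℕ | 1 ≤ n ∧ n ≤ N ∧ P n}.ncard : ℝ)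

lemma count_eq (N : ℕ) (P : ℕ → Prop) [DecidablePred P] :
    count N P = (((Finset.Icc 1 N).filter P).card : ℝ) := by
  unfold count
  have : {n : ℕ | 1 ≤ n ∧ n ≤ N ∧ P n} = ((Finset.Icc 1 N).filter P : Set ℕ) := by
    ext n
    rw [Finset.coe_filter]
    constructor
    · rintro ⟨h1, h2, h3⟩
      exact ⟨Finset.mem_Icc.mpr ⟨h1, h2⟩, h3⟩
    · rintro ⟨h1, h2⟩
      exact ⟨(Finset.mem_Icc.mp h1).1, (Finset.mem_Icc.mp h1).2, h2⟩
  rw [this, Set.ncard_coe_finset]

/-- Unconditionally: (1) for every `k ≥ 1` there is `ε > 0` such that for all large `N` and every nondecreasing `f` at least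
`ε N` of the `n ≤ N` satisfy `|δ_{n+k} - f (δ_n)| ≥ ε`; (2) for every `k ≥ 1` and `Λ ≥ 0` there is `ε > 0` with this property
for every nonincreasing `f` with Lipschitz constant `Λ`. -/
theorem result :
    (∀ k : ℕ, 1 ≤ k → ∃ ε : ℝ, 0 < ε ∧ ∀ᶠ N : ℕ in atTop, ∀ f : ℝ → ℝ, Monotone f →
      ε * N ≤ count N (fun n => ε ≤ |δ (n + k) - f (δ n)|)) ∧
    ∀ k : ℕ, 1 ≤ k → ∀ Λ : ℝ, 0 ≤ Λ → ∃ ε : ℝ, 0 < ε ∧ ∀ᶠ N : ℕ in atTop, ∀ f : ℝ → ℝ, Antitone f →
      (∀ s t : ℝ, |f s - f t| ≤ Λ * |s - t|) →
      ε * N ≤ count N (fun n => ε ≤ |δ (n + k) - f (δ n)|) := by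
  classical
  refine ⟨fun k hk => ?_, fun k hk Λ hΛ => ?_⟩
  · obtain ⟨ε, hε, h⟩ := Pool.Agent.N670.GS.mono k hk
    refine ⟨ε, hε, ?_⟩
    filter_upwards [h] with N hN f hf
    rw [count_eq]
    exact hN f hf
  · obtain ⟨ε, hε, h⟩ := Pool.Agent.N670.GS.anti k hk Λ hΛ
    refine ⟨ε, hε, ?_⟩
    filter_upwards [h] with N hN f hf hfΛ
    rw [count_eq]
    exact hN f hf hfΛ

end Pool.Agent.Results.MP_ec260d_nt.MonotoneRelations
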